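import Pool.Agent.H28.EN.Targets

/-!
# en1_modules, row PHI: the function `phi`
-/

set_option autoImplicit false

open Pool.Agent.H93.EB Pool.Agent.H28.EN

namespace Pool.Agent.H90.EN

theorem pf_PHI : T_PHI := by
  have p0 : ∀ x : ℝ, 0 ≤ max (x - 63 / 100) 0 := fun x => le_max_right _ _
  have p1 : ∀ x : ℝ, x - 63 / 100 ≤ max (x - 63 / 100) 0 := fun x => le_max_left _ _
  have p2 : ∀ x : ℝ, max (x - 63 / 100) 0 = x - 63 / 100 ∨
      (max (x - 63 / 100) 0 = 0 ∧ x ≤ 63 / 100) := by
    intro x
    rcases le_total (x - 63 / 100) 0 with h | h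
    · exact Or.inr ⟨max_eq_right h, by linarith⟩
    · exact Or.inl (max_eq_left h)
  refine ⟨?_, ?_, ?_, ?_, ?_, ?_⟩
  · intro a b hab
    exact pow_le_pow_left₀ (p0 a) (max_le_max (by linarith) le_rfl) 2
  · intro x u
    unfold phi dph
    have h0 := p0 x
    rcases p2 (x + u) with h | ⟨h, _⟩
    · rw [h]
      rcases p2 x with h2 | ⟨h2, h3⟩
      · rw [h2]
        nlinarith
      · have h4 := p0 (x + u)
        rw [h] at h4
        rw [h2]
        nlinarith
    · rw [h]
      nlinarith [sq_nonneg (max (x - 63 / 100) 0 + u)]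
  · intro x u
    unfold phi dph
    have h0 := p0 x
    have h1 := p0 (x + u)
    have h2 := p1 (x + u)
    rcases p2 x with h | ⟨h, _⟩
    · rw [h] at h0 ⊢
      nlinarith [sq_nonneg (max (x + u - 63 / 100) 0 - (x - 63 / 100))]
    · rw [h]
      nlinarith [sq_nonneg (max (x + u - 63 / 100) 0)]
  · intro a b
    unfold brg phi dph
    have h0 := p0 b
    have h1 := p1 a
    have key : max (b - 63 / 100) 0 * (a - b) ≤
        max (b - 63 / 100) 0 * (max (a - 63 / 100) 0 - max (b - 63 / 100) 0) := by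
      rcases p2 b with h | ⟨h, _⟩
      · rw [h] at h0 ⊢
        exact mul_le_mul_of_nonneg_left (by linarith) h0
      · rw [h]
        simp
    nlinarith
  · intro a b ha
    unfold brg phi dph
    have ha0 : max (a - 63 / 100) 0 = 0 := max_eq_right (by linarith)
    have h0 := p0 b
    rw [ha0]
    rcases p2 b with h | ⟨h, _⟩
    · rw [h] at h0 ⊢
      nlinarith
    · rw [h]
      simp
  · intro x u
    unfold phi dph
    nlinarith [sq_nonneg (max (x - 63 / 100) 0 + u)]

end Pool.Agent.H90.EN
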