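import Pool.Agent.H28.EN.Targets

/-!
# en1_modules, row PK1: the peak, small differences
-/

set_option autoImplicit false

open Finset Pool.Agent.H6.N4D Pool.Agent.H93.EB Pool.Agent.H28.EN

namespace Pool.Agent.H90.EN

theorem ee_re (x : ℝ) : (ee x).re = Real.cos (2 * Real.pi * x) := by
  unfold ee
  exact Complex.exp_ofReal_mul_I_re _

theorem pi_sq_le : Real.pi ^ 2 ≤ 99225 / 10000 := by
  have h1 := Real.pi_lt_d2
  have h2 := Real.pi_pos
  nlinarith

/-- the weight -/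
noncomputable def gw (c : ℝ) : ℂ := ee (-(c / 2)) * ((1 - Real.cos (Real.pi * c) : ℝ) : ℂ)

theorem one_sub_cos_nonneg (x : ℝ) : 0 ≤ 1 - Real.cos x := by
  have := Real.cos_le_one x
  linarith

theorem norm_gw_le (c ρ : ℝ) (h : |c| ≤ ρ) : ‖gw c‖ ≤ 5 * ρ ^ 2 := by
  unfold gw
  rw [norm_mul, norm_ee, one_mul, Complex.norm_real, Real.norm_of_nonneg (one_sub_cos_nonneg _)]
  have h1 : 1 - (Real.pi * c) ^ 2 / 2 ≤ Real.cos (Real.pi * c) :=
    Real.one_sub_sq_div_two_le_cos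
  have h2 : c ^ 2 ≤ ρ ^ 2 := sq_le_sq' (by linarith [neg_abs_le c]) (le_trans (le_abs_self c) h)
  have h3 := pi_sq_le
  have h4 : (Real.pi * c) ^ 2 = Real.pi ^ 2 * c ^ 2 := by ring
  have h5 : Real.pi ^ 2 * c ^ 2 ≤ 10 * ρ ^ 2 :=
    mul_le_mul (by linarith) h2 (sq_nonneg c) (by norm_num)
  rw [h4] at h1
  linarith

theorem abs_cos_sub_le (x y b : ℝ) (hx : |x| ≤ b) (hy : |y| ≤ b) :
    |Real.cos x - Real.cos y| ≤ b * |x - y| := by
  rw [Real.cos_sub_cos, abs_mul, abs_mul]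
  have h1 : |Real.sin ((x + y) / 2)| ≤ |(x + y) / 2| := Real.abs_sin_le_abs
  have h2 : |Real.sin ((x - y) / 2)| ≤ |(x - y) / 2| := Real.abs_sin_le_abs
  have h3 : |(x + y) / 2| ≤ b := by
    rw [abs_div, abs_two]
    have := abs_add_le x y
    linarith
  have h4 : |(x - y) / 2| = |x - y| / 2 := by rw [abs_div, abs_two]
  have h5 : |(-2 : ℝ)| = 2 := by norm_num
  rw [h5]
  have h6 : |Real.sin ((x + y) / 2)| * |Real.sin ((x - y) / 2)| ≤ b * (|x - y| / 2) :=
    mul_le_mul (h1.trans h3) (h2.trans h4.le) (abs_nonneg _)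
      (le_trans (abs_nonneg _) h3)
  linarith

theorem norm_gw_sub_le (c c' ρ : ℝ) (h : |c| ≤ ρ) (h' : |c'| ≤ ρ) (hρ : ρ ≤ 3 / 10) :
    ‖gw c - gw c'‖ ≤ 15 * ρ * |c - c'| := by
  have hρ0 : 0 ≤ ρ := le_trans (abs_nonneg _) h
  have e : gw c - gw c' = (ee (-(c / 2)) - ee (-(c' / 2))) *
      ((1 - Real.cos (Real.pi * c) : ℝ) : ℂ) +
      ee (-(c' / 2)) * ((Real.cos (Real.pi * c') - Real.cos (Real.pi * c) : ℝ) : ℂ) := by
    unfold gw
    push_cast
    ring
  have h1 : ‖ee (-(c / 2)) - ee (-(c' / 2))‖ ≤ Real.pi * |c - c'| := by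
    refine (norm_ee_sub_le _ _).trans ?_
    have h2 := nd_le_abs (-(c / 2) - -(c' / 2))
    have h3 : |-(c / 2) - -(c' / 2)| = |c - c'| / 2 := by
      have : -(c / 2) - -(c' / 2) = -((c - c') / 2) := by ring
      rw [this, abs_neg, abs_div, abs_two]
    rw [h3] at h2
    have := mul_le_mul_of_nonneg_left h2 (show 0 ≤ 2 * Real.pi by positivity)
    linarith
  have h2 : ‖((1 - Real.cos (Real.pi * c) : ℝ) : ℂ)‖ ≤ 5 * ρ ^ 2 := by
    have := norm_gw_le c ρ h
    unfold gw at this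
    rwa [norm_mul, norm_ee, one_mul] at this
  have h3 : |Real.cos (Real.pi * c') - Real.cos (Real.pi * c)| ≤
      Real.pi * ρ * (Real.pi * |c - c'|) := by
    have hb : ∀ x : ℝ, |x| ≤ ρ → |Real.pi * x| ≤ Real.pi * ρ := by
      intro x hx
      rw [abs_mul, abs_of_pos Real.pi_pos]
      exact mul_le_mul_of_nonneg_left hx Real.pi_pos.le
    have := abs_cos_sub_le (Real.pi * c') (Real.pi * c) (Real.pi * ρ) (hb _ h') (hb _ h)
    rw [← mul_sub, abs_mul, abs_of_pos Real.pi_pos, abs_sub_comm c' c] at this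
    exact this
  rw [e]
  refine (norm_add_le _ _).trans ?_
  have h8 : ‖((Real.cos (Real.pi * c') - Real.cos (Real.pi * c) : ℝ) : ℂ)‖ =
      |Real.cos (Real.pi * c') - Real.cos (Real.pi * c)| := by
    rw [Complex.norm_real, Real.norm_eq_abs]
  rw [norm_mul, norm_mul, norm_ee, one_mul, h8]
  have h4 : ‖ee (-(c / 2)) - ee (-(c' / 2))‖ * ‖((1 - Real.cos (Real.pi * c) : ℝ) : ℂ)‖ ≤
      Real.pi * |c - c'| * (5 * ρ ^ 2) :=
    mul_le_mul h1 h2 (norm_nonneg _) (by positivity)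
  have h5 : Real.pi * |c - c'| * (5 * ρ ^ 2) + Real.pi * ρ * (Real.pi * |c - c'|) =
      (5 * Real.pi * ρ + Real.pi ^ 2) * (ρ * |c - c'|) := by ring
  have h6 : 5 * Real.pi * ρ + Real.pi ^ 2 ≤ 15 := by
    have := pi_sq_le
    have h7 := Real.pi_lt_d2
    have h8 : Real.pi * ρ ≤ 315 / 100 * (3 / 10) :=
      mul_le_mul (by linarith) hρ hρ0 (by norm_num)
    linarith
  have h7 : (5 * Real.pi * ρ + Real.pi ^ 2) * (ρ * |c - c'|) ≤ 15 * (ρ * |c - c'|) :=
    mul_le_mul_of_nonneg_right h6 (by positivity)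
  linarith

theorem gw_re_ge (c : ℝ) (h : |c| ≤ 3 / 10) : nd c ^ 2 ≤ (gw c).re := by
  have e : (gw c).re = Real.cos (Real.pi * c) * (1 - Real.cos (Real.pi * c)) := by
    unfold gw
    rw [Complex.mul_re, Complex.ofReal_re, Complex.ofReal_im, mul_zero, sub_zero, ee_re]
    have : 2 * Real.pi * -(c / 2) = -(Real.pi * c) := by ring
    rw [this, Real.cos_neg]
  rw [e]
  have hpi := Real.pi_pos
  have hB : |Real.pi * c| ≤ Real.pi / 3 := by
    rw [abs_mul, abs_of_pos hpi]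
    have := mul_le_mul_of_nonneg_left h hpi.le
    linarith
  have hcos : 1 / 2 ≤ Real.cos (Real.pi * c) := by
    rw [← Real.cos_abs, ← Real.cos_pi_div_three]
    exact Real.cos_le_cos_of_nonneg_of_le_pi (abs_nonneg _) (by linarith) hB
  have hsin : 2 * c ^ 2 ≤ 1 - Real.cos (Real.pi * c) := by
    have h1 : Real.cos (Real.pi * c) = 1 - 2 * Real.sin (Real.pi * c / 2) ^ 2 := by
      have := Real.cos_sq' (Real.pi * c / 2)
      have h2 := Real.cos_two_mul (Real.pi * c / 2)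
      have h3 : 2 * (Real.pi * c / 2) = Real.pi * c := by ring
      rw [h3] at h2
      linarith
    have h2 : 2 / Real.pi * |Real.pi * c / 2| ≤ |Real.sin (Real.pi * c / 2)| :=
      Real.mul_abs_le_abs_sin (by
        rw [abs_div, abs_two]
        linarith)
    have h3 : 2 / Real.pi * |Real.pi * c / 2| = |c| := by
      rw [abs_div, abs_mul, abs_two, abs_of_pos hpi]
      field_simp
    rw [h3] at h2
    have h4 : c ^ 2 ≤ Real.sin (Real.pi * c / 2) ^ 2 := by
      rw [← sq_abs c, ← sq_abs (Real.sin _)]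
      exact pow_le_pow_left₀ (abs_nonneg _) h2 2
    linarith
  have h1 : nd c ^ 2 ≤ c ^ 2 := by
    rw [← sq_abs c]
    exact pow_le_pow_left₀ (nd_nonneg c) (nd_le_abs c) 2
  have h2 : 1 / 2 * (2 * c ^ 2) ≤ Real.cos (Real.pi * c) * (1 - Real.cos (Real.pi * c)) :=
    mul_le_mul hcos hsin (by positivity) (by linarith)
  linarith

theorem pf_PK1 (h1 : T_MID) (h2 : T_UNF) (h3 : T_NDS) : T_PK1 := by
  intro lam L n θ φ r s hlam hL hReg hTop hGM hM hρ
  obtain ⟨N, hN⟩ : ∃ N, N = 2 ^ 15 * L := ⟨_, rfl⟩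
  have hN1 : 1 ≤ N := by
    rw [hN]
    exact Nat.mul_pos (by norm_num) hL
  have hNR : (0 : ℝ) < N := by exact_mod_cast hN1
  obtain ⟨ρ, hρd⟩ : ∃ ρ, ρ = |r| + |s| := ⟨_, rfl⟩
  have hρ0 : 0 ≤ ρ := by rw [hρd]; positivity
  rw [← hρd] at hρ ⊢
  have hc : ∀ m ∈ Ioc n (n + N), |r + s * tt N n m| ≤ ρ := by
    intro m hm
    rw [mem_Ioc] at hm
    have h4 : (n : ℝ) ≤ m := by exact_mod_cast hm.1.le
    have h5 : (m : ℝ) ≤ n + N := by exact_mod_cast hm.2
    have h6 : |tt N n m| ≤ 1 := by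
      unfold tt
      rw [abs_div, abs_of_pos hNR, div_le_one hNR, abs_of_nonneg (by linarith)]
      linarith
    refine (abs_add_le _ _).trans ?_
    rw [abs_mul, hρd]
    have := mul_le_mul_of_nonneg_left h6 (abs_nonneg s)
    linarith
  have hMID := h1 lam N n θ φ r s hN1 (hN ▸ hTop)
  have hUNF := h2 lam L n θ φ (5 * ρ ^ 2) (15 * ρ ^ 2 / 2 ^ 15)
    (fun m => gw (r + s * tt N n m)) hlam hL hReg hGM
    (fun m hm => norm_gw_le _ _ (hc m (by rw [hN]; exact hm))) (by positivity)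
    (by
      intro u hu m hm m' hm'
      have hsub : ∀ x ∈ Ioc (n + u * L) (n + u * L + L), x ∈ Ioc n (n + N) := by
        intro x hx
        rw [mem_Ioc] at hx ⊢
        refine ⟨by omega, hx.2.trans ?_⟩
        rw [hN]
        have : (u + 1) * L ≤ 2 ^ 15 * L := Nat.mul_le_mul_right L (by omega)
        have e : (u + 1) * L = u * L + L := by ring
        omega
      have h4 := norm_gw_sub_le _ _ ρ (hc m (hsub m hm)) (hc m' (hsub m' hm')) hρ
      refine h4.trans ?_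
      have h5 : |r + s * tt N n m - (r + s * tt N n m')| ≤ ρ / 2 ^ 15 := by
        have e : r + s * tt N n m - (r + s * tt N n m') = s * (((m : ℝ) - m') / N) := by
          unfold tt
          field_simp
          ring
        rw [e, abs_mul, abs_div, abs_of_pos hNR]
        rw [mem_Ioc] at hm hm'
        have h6 : |(m : ℝ) - m'| ≤ L := by
          have a1 : ((n + u * L : ℕ) : ℝ) < m := by exact_mod_cast hm.1
          have a2 : (m : ℝ) ≤ ((n + u * L + L : ℕ) : ℝ) := by exact_mod_cast hm.2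
          have a3 : ((n + u * L : ℕ) : ℝ) < m' := by exact_mod_cast hm'.1
          have a4 : (m' : ℝ) ≤ ((n + u * L + L : ℕ) : ℝ) := by exact_mod_cast hm'.2
          push_cast at a1 a2 a3 a4
          rw [abs_le]
          constructor <;> linarith
        have hLR : (0 : ℝ) < L := by exact_mod_cast hL
        have h7 : |(m : ℝ) - m'| / N ≤ 1 / 2 ^ 15 := by
          have hNL : (N : ℝ) = 2 ^ 15 * (L : ℝ) := by
            rw [hN]
            push_cast
            norm_num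
          rw [div_le_iff₀ hNR, hNL]
          have : (1 : ℝ) / 2 ^ 15 * (2 ^ 15 * (L : ℝ)) = L := by
            norm_num
            ring
          linarith
        have h8 : |s| * (|(m : ℝ) - m'| / N) ≤ ρ * (1 / 2 ^ 15) :=
          mul_le_mul (by rw [hρd]; linarith [abs_nonneg r]) h7 (by positivity) hρ0
        linarith
      have h9 := mul_le_mul_of_nonneg_left h5 (show 0 ≤ 15 * ρ by positivity)
      have e : 15 * ρ * (ρ / 2 ^ 15) = 15 * ρ ^ 2 / 2 ^ 15 := by ring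
      rw [e] at h9
      exact h9)
  rw [← hN] at hUNF hGM hM ⊢
  -- real parts
  obtain ⟨X, hX⟩ : ∃ X, X = (∑ m ∈ Ioc n (n + N), lam m *
      (Real.cos (2 * Real.pi * (θ * m + φ) + Real.pi * (r + s * tt N n m)) *
        (1 - Real.cos (Real.pi * (r + s * tt N n m))))) / N := ⟨_, rfl⟩
  obtain ⟨Z, hZ⟩ : ∃ Z, Z = (∑ m ∈ Ioc n (n + N), (gw (r + s * tt N n m)).re) / (N : ℝ) :=
    ⟨_, rfl⟩
  rw [← hX] at hMID
  have hre1 : ((∑ m ∈ Ioc n (n + N), (lam m : ℂ) * ee (-(θ * m + φ)) *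
      gw (r + s * tt N n m)) / ((N : ℕ) : ℂ)).re = X := by
    rw [hX, Complex.div_natCast_re, Complex.re_sum]
    congr 1
    refine sum_congr rfl fun m _ => ?_
    have e : (lam m : ℂ) * ee (-(θ * m + φ)) * gw (r + s * tt N n m) =
        ((lam m * (1 - Real.cos (Real.pi * (r + s * tt N n m))) : ℝ) : ℂ) *
          ee (-(θ * m + φ) + -((r + s * tt N n m) / 2)) := by
      rw [ee_add]
      unfold gw
      push_cast
      ring
    rw [e, Complex.re_ofReal_mul, ee_re]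
    have e2 : 2 * Real.pi * (-(θ * m + φ) + -((r + s * tt N n m) / 2)) =
        -(2 * Real.pi * (θ * m + φ) + Real.pi * (r + s * tt N n m)) := by ring
    rw [e2, Real.cos_neg]
    ring
  have hre2 : ((M lam N n : ℂ) * ((∑ m ∈ Ioc n (n + N), gw (r + s * tt N n m)) /
      ((N : ℕ) : ℂ))).re = M lam N n * Z := by
    rw [hZ, Complex.re_ofReal_mul, Complex.div_natCast_re, Complex.re_sum]
  have habs := Complex.abs_re_le_norm ((∑ m ∈ Ioc n (n + N), (lam m : ℂ) *
      ee (-(θ * m + φ)) * gw (r + s * tt N n m)) / ((N : ℕ) : ℂ) -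
      (M lam N n : ℂ) * ((∑ m ∈ Ioc n (n + N), gw (r + s * tt N n m)) / ((N : ℕ) : ℂ)))
  rw [Complex.sub_re, hre1, hre2] at habs
  have hX2 : M lam N n * Z - (5 * ρ ^ 2 / 10 ^ 4 + 2 * (15 * ρ ^ 2 / 2 ^ 15)) ≤ X := by
    have h4 := habs.trans hUNF
    have h5 := (abs_le.1 h4).1
    linarith
  have hNDS := h3 (2 ^ 14 * L) n r s (Nat.mul_pos (by norm_num) hL)
    (by linarith [abs_nonneg s]) (by linarith [abs_nonneg r])
  have e2 : 2 * (2 ^ 14 * L) = N := by rw [hN]; ring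
  rw [e2, ← hρd] at hNDS
  have hZ1 : ρ ^ 2 / 144 ≤ Z := by
    refine hNDS.trans ?_
    rw [hZ]
    exact div_le_div_of_nonneg_right (sum_le_sum fun m hm =>
      gw_re_ge _ ((hc m hm).trans hρ)) hNR.le
  have hMZ : 62 / 100 * (ρ ^ 2 / 144) ≤ M lam N n * Z :=
    mul_le_mul hM hZ1 (by positivity) (by linarith)
  have hs0 : 0 ≤ ρ ^ 2 := sq_nonneg ρ
  refine le_trans ?_ hMID
  norm_num at hX2 hMZ ⊢
  linarith

end Pool.Agent.H90.EN
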